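import Pool.Agent.helper43.DHB.SpecB

/-!
# Module bNIC of project d2 (helper13)
-/

set_option autoImplicit false

open Filter Topology MeasureTheory
open scoped commutatorElement

namespace Pool.Agent.helper90.DH

open Pool.Agent.helper64.D2

theorem bNIC_mk {f : ℝ → ℝ} (hm : Measurable f) (B C : ℝ) (h1 : ∀ x, |f x| ≤ B) (h2 : ∀ x, C < |x| → f x = 0) : Nc f :=
  ⟨hm, max B C, fun x => (h1 x).trans (le_max_left _ _), fun x hx => h2 x (lt_of_le_of_lt (le_max_right _ _) hx)⟩

theorem bNIC_add {f g : ℝ → ℝ} (hf : Nc f) (hg : Nc g) : Nc (fun x => f x + g x) := by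
  obtain ⟨mf, B, hB1, hB2⟩ := hf
  obtain ⟨mg, C, hC1, hC2⟩ := hg
  refine bNIC_mk (mf.add mg) (B + C) (max B C) (fun x => (abs_add_le _ _).trans (add_le_add (hB1 x) (hC1 x))) ?_
  intro x hx
  rw [hB2 x (lt_of_le_of_lt (le_max_left _ _) hx), hC2 x (lt_of_le_of_lt (le_max_right _ _) hx), add_zero]

theorem bNIC_smul {f : ℝ → ℝ} (c : ℝ) (hf : Nc f) : Nc (fun x => c * f x) := by
  obtain ⟨mf, B, hB1, hB2⟩ := hf
  refine bNIC_mk (mf.const_mul c) (|c| * B) B (fun x => ?_) ?_
  · rw [abs_mul]; exact mul_le_mul_of_nonneg_left (hB1 x) (abs_nonneg _)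
  · intro x hx; rw [hB2 x hx, mul_zero]

theorem bNIC_sub {f g : ℝ → ℝ} (hf : Nc f) (hg : Nc g) : Nc (fun x => f x - g x) := by
  have h := bNIC_add hf (bNIC_smul (-1) hg)
  have e : (fun x => f x - g x) = fun x => f x + -1 * g x := by funext x; ring
  rw [e]; exact h

theorem bNIC_mul {f g : ℝ → ℝ} (hf : Nc f) (hg : Nc g) : Nc (fun x => f x * g x) := by
  obtain ⟨mf, B, hB1, hB2⟩ := hf
  obtain ⟨mg, C, hC1, hC2⟩ := hg
  refine bNIC_mk (mf.mul mg) (B * C) B (fun x => ?_) ?_
  · rw [abs_mul]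
    exact mul_le_mul (hB1 x) (hC1 x) (abs_nonneg _) ((abs_nonneg _).trans (hB1 x))
  · intro x hx; rw [hB2 x hx, zero_mul]

theorem bNIC_zero : Nc (fun _ => (0 : ℝ)) := bNIC_mk measurable_const 0 0 (fun x => by simp) (fun x _ => rfl)

theorem bNIC_int {f : ℝ → ℝ} (hf : Nc f) : Integrable f := by
  obtain ⟨mf, B, hB1, hB2⟩ := hf
  have h1 : IntegrableOn f (Set.Icc (-B) B) := by
    refine Measure.integrableOn_of_bounded (M := B) ?_ mf.aestronglyMeasurable ?_
    · simp
    · exact Filter.Eventually.of_forall (fun x => by rw [Real.norm_eq_abs]; exact hB1 x)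
  have h2 : Function.support f ⊆ Set.Icc (-B) B := by
    intro x hx
    by_contra hx2
    apply hx
    apply hB2
    by_contra h3
    push Not at h3
    exact hx2 (abs_le.1 h3)
  exact (integrableOn_iff_integrable_of_support_subset h2).1 h1

theorem bNIC_sq {f : ℝ → ℝ} (hf : Nc f) : Integrable (fun x => f x ^ 2) := by
  have h := bNIC_int (bNIC_mul hf hf)
  have e : (fun x => f x ^ 2) = fun x => f x * f x := by funext x; ring
  rw [e]; exact h

theorem bNIC_mem {f : ℝ → ℝ} (hf : Nc f) : MemLp f 2 (volume : Measure ℝ) :=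
  (memLp_two_iff_integrable_sq hf.1.aestronglyMeasurable).2 (bNIC_sq hf)

theorem bNIC_nn (f : ℝ → ℝ) : 0 ≤ nsq f := integral_nonneg (fun x => sq_nonneg _)

theorem bNIC_cs {f g : ℝ → ℝ} (hf : Nc f) (hg : Nc g) : |∫ x, f x * g x| ≤ √(nsq f) * √(nsq g) := by
  rw [← Real.sqrt_mul (bNIC_nn f)]
  apply Real.abs_le_sqrt
  -- discriminant
  have hq : ∀ t : ℝ, 0 ≤ nsq g * (t * t) + (2 * ∫ x, f x * g x) * t + nsq f := by
    intro t
    have h1 : 0 ≤ ∫ x, (f x + t * g x) ^ 2 := integral_nonneg (fun x => sq_nonneg _)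
    have h2 : (∫ x, (f x + t * g x) ^ 2) = nsq g * (t * t) + (2 * ∫ x, f x * g x) * t + nsq f := by
      have e : (fun x => (f x + t * g x) ^ 2) = fun x => (f x ^ 2 + (2 * t) * (f x * g x)) + (t * t) * (g x ^ 2) := by
        funext x; ring
      rw [e, integral_add, integral_add, integral_const_mul, integral_const_mul]
      · unfold nsq; ring
      · exact bNIC_sq hf
      · exact (bNIC_int (bNIC_mul hf hg)).const_mul _
      · exact (bNIC_sq hf).add ((bNIC_int (bNIC_mul hf hg)).const_mul _)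
      · exact (bNIC_sq hg).const_mul _
    rwa [h2] at h1
  have h3 := discrim_le_zero hq
  unfold discrim at h3
  nlinarith

theorem bNIC_tri {f g : ℝ → ℝ} (hf : Nc f) (hg : Nc g) : √(nsq (fun x => f x + g x)) ≤ √(nsq f) + √(nsq g) := by
  have h1 : nsq (fun x => f x + g x) = nsq f + 2 * (∫ x, f x * g x) + nsq g := by
    unfold nsq
    have e : (fun x => (f x + g x) ^ 2) = fun x => (f x ^ 2 + 2 * (f x * g x)) + g x ^ 2 := by
      funext x; ring
    rw [e, integral_add, integral_add, integral_const_mul]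
    · exact bNIC_sq hf
    · exact (bNIC_int (bNIC_mul hf hg)).const_mul _
    · exact (bNIC_sq hf).add ((bNIC_int (bNIC_mul hf hg)).const_mul _)
    · exact bNIC_sq hg
  have h2 := (abs_le.1 (bNIC_cs hf hg)).2
  apply Real.sqrt_le_iff.2
  refine ⟨by positivity, ?_⟩
  rw [h1, add_sq, Real.sq_sqrt (bNIC_nn f), Real.sq_sqrt (bNIC_nn g)]
  linarith

theorem bNIC_mono {f g : ℝ → ℝ} (hf : Nc f) (hg : Nc g) (h : ∀ x, |f x| ≤ |g x|) : nsq f ≤ nsq g :=
  integral_mono (bNIC_sq hf) (bNIC_sq hg) (fun x => sq_le_sq.2 (h x))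

theorem bNIC_sum (J : Type) (S : Finset J) (F : J → ℝ → ℝ) (h : ∀ i ∈ S, Nc (F i)) : Nc (fun x => ∑ i ∈ S, F i x) := by
  classical
  induction S using Finset.induction_on with
  | empty => simpa using bNIC_zero
  | insert a s ha ih =>
    have h1 := ih (fun i hi => h i (Finset.mem_insert_of_mem hi))
    have h2 := bNIC_add (h a (Finset.mem_insert_self a s)) h1
    have e : (fun x => ∑ i ∈ insert a s, F i x) = fun x => F a x + ∑ i ∈ s, F i x := by
      funext x; rw [Finset.sum_insert ha]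
    rw [e]; exact h2

theorem bNIC_div {f : ℝ → ℝ} (c : ℝ) (hf : Nc f) : Nc (fun x => f x / c) := by
  have h := bNIC_smul c⁻¹ hf
  have e : (fun x => f x / c) = fun x => c⁻¹ * f x := by funext x; rw [div_eq_inv_mul]
  rw [e]; exact h

theorem bNIC_jen (J : Type) (S : Finset J) (F : J → ℝ → ℝ) (c : ℝ) (hc : 0 ≤ c) (h : ∀ i ∈ S, Nc (F i) ∧ nsq (F i) ≤ c) :
    nsq (fun x => (∑ i ∈ S, F i x) / S.card) ≤ c := by
  rcases S.eq_empty_or_nonempty with rfl | hS
  · simp [nsq]; exact hc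
  have hn : (0 : ℝ) < S.card := by exact_mod_cast hS.card_pos
  have h1 : ∀ x, ((∑ i ∈ S, F i x) / S.card) ^ 2 ≤ (∑ i ∈ S, F i x ^ 2) / S.card := by
    intro x
    rw [div_pow, div_le_div_iff₀ (by positivity) hn]
    have h2 := sq_sum_le_card_mul_sum_sq (s := S) (f := fun i => F i x)
    nlinarith
  have hN : Nc (fun x => (∑ i ∈ S, F i x) / S.card) := bNIC_div _ (bNIC_sum J S F (fun i hi => (h i hi).1))
  have hI : Integrable (fun x => (∑ i ∈ S, F i x ^ 2) / S.card) :=
    (integrable_finsetSum S (fun i hi => bNIC_sq (h i hi).1)).div_const _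
  calc nsq (fun x => (∑ i ∈ S, F i x) / S.card) ≤ ∫ x, (∑ i ∈ S, F i x ^ 2) / S.card := integral_mono (bNIC_sq hN) hI h1
    _ = (∑ i ∈ S, nsq (F i)) / S.card := by
      rw [integral_div, integral_finsetSum S (fun i hi => bNIC_sq (h i hi).1)]; rfl
    _ ≤ (∑ i ∈ S, c) / S.card := by
      apply div_le_div_of_nonneg_right (Finset.sum_le_sum (fun i hi => (h i hi).2)) hn.le
    _ = c := by rw [Finset.sum_const, nsmul_eq_mul]; field_simp

theorem bNIC_cell (s : ℕ) (x : ℝ) (k : ℤ) : x ∈ cell s k ↔ ci s x = k := by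
  have hp : (0 : ℝ) < 2 ^ s := by positivity
  unfold cell ci
  rw [Set.mem_Ico, Int.floor_eq_iff, div_le_iff₀ hp, lt_div_iff₀ hp, mul_comm x]

theorem bNIC_pa (s : ℕ) (f : ℝ → ℝ) (hf : PA s f) (hs : Su f) : Nc f := by
  choose a b hab using hf
  have hp : (0 : ℝ) < 2 ^ s := by positivity
  have hfe : ∀ x, f x = a (ci s x) + b (ci s x) * x := fun x => hab (ci s x) x ((bNIC_cell s x _).2 rfl)
  have hci : Measurable (ci s) := Int.measurable_floor.comp (measurable_const.mul measurable_id)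
  have ha : Measurable a := measurable_of_countable a
  have hb : Measurable b := measurable_of_countable b
  have hm : Measurable f := by
    have e : f = fun x => a (ci s x) + b (ci s x) * x := funext hfe
    rw [e]
    exact (ha.comp hci).add ((hb.comp hci).mul measurable_id)
  -- finitely many cells
  obtain ⟨M, hM⟩ : ∃ M : ℝ, ∀ k ∈ Finset.Icc (0 : ℤ) (2 ^ s), |a k| + |b k| ≤ M := by
    exact ⟨∑ k ∈ Finset.Icc (0 : ℤ) (2 ^ s), (|a k| + |b k|), fun k hk =>
      Finset.single_le_sum (f := fun k => |a k| + |b k|) (fun i _ => by positivity) hk⟩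
  refine bNIC_mk hm (max M 0) 1 ?_ ?_
  · intro x
    by_cases hx : x ∈ Set.Icc (1 / 5 : ℝ) (4 / 5)
    · have hk : ci s x ∈ Finset.Icc (0 : ℤ) (2 ^ s) := by
        rw [Finset.mem_Icc]
        constructor
        · apply Int.floor_nonneg.2
          have : 0 ≤ x := by linarith [hx.1]
          positivity
        · unfold ci
          have h1 : (2 : ℝ) ^ s * x ≤ ((2 ^ s : ℤ) : ℝ) := by
            push_cast
            nlinarith [hx.2]
          exact (Int.floor_le_floor h1).trans (by rw [Int.floor_intCast])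
      rw [hfe x]
      have h1 := hM _ hk
      have h2 : |x| ≤ 1 := by
        rw [abs_le]; constructor <;> linarith [hx.1, hx.2]
      calc |a (ci s x) + b (ci s x) * x| ≤ |a (ci s x)| + |b (ci s x) * x| := abs_add_le _ _
        _ = |a (ci s x)| + |b (ci s x)| * |x| := by rw [abs_mul]
        _ ≤ |a (ci s x)| + |b (ci s x)| := by nlinarith [abs_nonneg (b (ci s x))]
        _ ≤ M := h1
        _ ≤ max M 0 := le_max_left _ _
    · rw [hs x hx, abs_zero]; exact le_max_right _ _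
  · intro x hx
    apply hs
    intro h
    have h2 : |x| ≤ 1 := by
      rw [abs_le]; constructor <;> linarith [h.1, h.2]
    linarith

theorem bNIC (hNMF : bNMF_stmt) : bNIC_stmt := by
  obtain ⟨-, -, hN3, hN4⟩ := hNMF
  refine ⟨fun f g hf hg => ⟨bNIC_add hf hg, bNIC_sub hf hg, bNIC_mul hf hg⟩, ?_, ?_, bNIC_sum,
    fun f hf => ⟨bNIC_int hf, bNIC_sq hf, bNIC_mem hf⟩, fun f g hf hg => bNIC_tri hf hg, fun f g hf hg => bNIC_cs hf hg,
    fun f g hf hg h => bNIC_mono hf hg h, bNIC_jen, ?_, bNIC_pa⟩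
  · intro f c hf
    refine ⟨bNIC_smul c hf, bNIC_div c hf, ?_⟩
    obtain ⟨mf, B, hB1, hB2⟩ := hf
    refine bNIC_mk mf.abs B B (fun x => by rw [abs_abs]; exact hB1 x) (fun x hx => by rw [hB2 x hx, abs_zero])
  · intro f A hA hf
    obtain ⟨mf, B, hB1, hB2⟩ := hf
    refine bNIC_mk (mf.indicator hA) B B (fun x => ?_) (fun x hx => ?_)
    · by_cases hx : x ∈ A
      · rw [Set.indicator_of_mem hx]; exact hB1 x
      · rw [Set.indicator_of_notMem hx, abs_zero]; exact (abs_nonneg _).trans (hB1 x)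
    · by_cases hxA : x ∈ A
      · rw [Set.indicator_of_mem hxA]; exact hB2 x hx
      · rw [Set.indicator_of_notMem hxA]
  · intro C a f ha hC hf
    obtain ⟨hcont, -, -, hlip⟩ := hN3 C a ha hC
    obtain ⟨mf, B, hB1, hB2⟩ := hf
    have ha0 : 0 < 1 - a := by linarith
    have hB0 : 0 ≤ B := (abs_nonneg _).trans (hB1 0)
    have hNc : Nc (fun x => f (C x)) := by
      refine bNIC_mk (mf.comp hcont.measurable) B ((B + |C 0| + 1) / (1 - a)) (fun x => hB1 _) ?_
      intro x hx
      apply hB2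
      have h1 := (hlip x 0).1
      rw [sub_zero] at h1
      rw [div_lt_iff₀ ha0] at hx
      have h2 : |C x - C 0| ≤ |C x| + |C 0| := abs_sub _ _
      nlinarith
    refine ⟨hNc, ?_⟩
    have h1 := (hN4 C a (fun x => f x ^ 2) ha hC (fun x => sq_nonneg _) (bNIC_sq ⟨mf, B, hB1, hB2⟩)).2
    exact h1

end Pool.Agent.helper90.DH
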